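import Pool.Agent.Run7.h955.OV.Main
import Pool.Agent.Run7.h882.OV.P_LOG

/-!
# A one-relator group with undecidable single one-variable equation problem

The group is `G = ⟨a, b, c | (b a b⁻¹) a (b a b⁻¹)⁻¹ = a²⟩`, the free product of the
Baumslag–Gersten group and of an infinite cyclic group.

Let `q = b a b⁻¹`, so `q a q⁻¹ = a²`.

* The equation `[x a x⁻¹, a] = 1` has in the Baumslag–Gersten group the solutions `x = a^w q^u`
  (`u` an integer, `w` a dyadic rational number); two more equations say that `w` is an integer and
  `u ≥ 0`. The elements `a^w = [q, x]` and `a^u` are values of words in `x`; and with `a^S`, `a^T`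
  also `a^(S 2^T)` is one. So exponential terms in the two unknowns `u`, `w` and inequalities
  between them are available.
* A binomial coefficient `choose A B` is odd iff the quotient of `2^(e(A+1) - z B)` by
  `2^e - 2^z - 1` is odd (`z`, `e` large); so the relation `V &&& M = 0` between explicit
  exponential terms `V`, `M` in `u` (even fractions of exponential terms) is expressed by the second
  unknown `w`.
* By the theorem of Davis, Putnam, Robinson and Matiyasevich each recursively enumerable set is
  described by finite sets satisfying a universal formula whose atoms are `α i + β j + γ k + δ ∈ U`;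
  the digits of `u` code the set `U`, and all instances of the formula are one condition
  `V &&& M = 0` (arrays of shifted copies of `u`).
* The finite system is turned to one equation with the free letter `c`, using a word in `x` with
  exponent sum `-1` whose value is `1` for all `x = a^w q^u`, and the wreath product with `ℤ`.
-/

set_option autoImplicit false

namespace Pool.Agent.Results.MP_1ebeae_al.Undecidable

/-- The one-relator group `⟨x_0, …, x_(n-1) | r⟩`. -/
abbrev OneRelatorGroup {n : ℕ} (r : FreeGroup (Fin n)) : Type :=
  PresentedGroup ({r} : Set (FreeGroup (Fin n)))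

/-- The value at `x = g` of a word in the letters `x_i^{±1}` (constants, written `(some i, true)` and
`(some i, false)`) and `x^{±1}` (the unknown, written `(none, true)` and `(none, false)`). -/
def value {n : ℕ} (r : FreeGroup (Fin n)) (g : OneRelatorGroup r)
    (w : List (Option (Fin n) × Bool)) : OneRelatorGroup r :=
  (w.map (fun l => if l.2 = true then (l.1.elim g PresentedGroup.of)
    else (l.1.elim g PresentedGroup.of)⁻¹)).prod

/-- The one-variable equation `w(x) = 1` is satisfiable in `⟨x_0, …, x_(n-1) | r⟩`. -/
def Satisfiable {n : ℕ} (r : FreeGroup (Fin n)) (w : List (Option (Fin n) × Bool)) : Prop :=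
  ∃ g : OneRelatorGroup r, value r g w = 1

/-- The relator `(b a b⁻¹) a (b a b⁻¹)⁻¹ a⁻²` in the free group on `a = x_0`, `b = x_1`,
`c = x_2`. -/
def relator : FreeGroup (Fin 3) :=
  (FreeGroup.of 1 * FreeGroup.of 0 * (FreeGroup.of 1)⁻¹) * FreeGroup.of 0 *
    (FreeGroup.of 1 * FreeGroup.of 0 * (FreeGroup.of 1)⁻¹)⁻¹ * ((FreeGroup.of 0) ^ 2)⁻¹

/-- The single one-variable equation problem of the one-relator group
`⟨a, b, c | (b a b⁻¹) a (b a b⁻¹)⁻¹ = a²⟩` is undecidable; moreover, each recursively enumerable
set of natural numbers is many-one reducible to it. -/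
theorem result : ¬ ComputablePred (Satisfiable relator) ∧
    ∀ p : ℕ → Prop, REPred p → ManyOneReducible p (Satisfiable relator) := by
  refine ⟨Pool.Agent.Run7.h955.OV.undec Pool.Agent.Run7.h882.OV.t_Log, ?_⟩
  intro p hp
  obtain ⟨t1, t2, ht⟩ := Pool.Agent.Run7.h955.OV.reduction (Pool.Agent.Run7.h882.OV.t_Log p hp)
  exact ⟨Pool.Agent.Run7.h955.OV.eqn t1 t2,
    (Pool.Agent.Run7.h955.OV.primrec_eqn t1 t2).to_comp, ht⟩

end Pool.Agent.Results.MP_1ebeae_al.Undecidable
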